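import Pool.Agent.Sig.Main

/-!
# A 5/2-competitive online algorithm for `σ`-interval coloring, for every `σ ≥ 1`

Outline of the proof. The class of an interval `[l, r]` is the set of the integers in it, a nonempty
range because `r - l ≥ 1`. The intervals of one class are grouped into pairs in the order of arrival;
over an integer lie at most `(⌊σ⌋ + 1)²` classes, so at most that many incomplete pairs. Pairs get
levels in the manner of Kierstead and Trotter, but tested at integers only, and each level has its
own five colours. In one level every range has an integer that lies in no other range of that level,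
hence only consecutive ranges meet or are adjacent. Each pair gets two of the five colours of its level:
consecutive ranges of a level get disjoint sets if they meet or are adjacent and sets with exactly one
common colour if not; this can always be continued online. So at most
`5 · (χ + (⌊σ⌋ + 1)²) / 2` colours are used.
-/

namespace Pool.Agent.Results.MP_7917af_lc.FiveHalves

open Pool.Agent.Sig

/-- **There is one online algorithm, not depending on `σ`, that is `5/2`-competitive for `σ`-interval
coloring for every real `σ ≥ 1`**; more precisely `A(χ) ≤ 5/2 · (χ + (⌊σ⌋ + 1)²)` for all `σ` and `χ`. -/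
theorem result :
    ∃ A : List (ℝ × ℝ) → ℕ, ∀ σ : ℝ, 1 ≤ σ →
      IsOnline σ A ∧ IsCompetitive σ A (5 / 2) ∧
        ∀ χ : ℕ, 2 * worst σ A χ ≤ 5 * (χ + ((⌊σ⌋₊ : ℕ∞) + 1) ^ 2) :=
  ⟨algo, fun σ _ => ⟨isOnline_algo σ, isCompetitive_algo σ, worst_le σ⟩⟩

end Pool.Agent.Results.MP_7917af_lc.FiveHalves
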